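import Mathlib

namespace Pool.Agent.Results.MP_58acf5_co.LowerBound

open Finset

/-- `G` contains the complete bipartite graph `K(r, s)`, on disjoint vertex sets `R` and `S`. -/
def HasK {n : ℕ} (G : SimpleGraph (Fin n)) (r s : ℕ) : Prop :=
  ∃ R S : Finset (Fin n), R.card = r ∧ S.card = s ∧ Disjoint R S ∧
    ∀ x ∈ R, ∀ y ∈ S, G.Adj x y

/-- `s_r(G)`: the largest `s` such that `G` contains `K(r, s)`. -/
noncomputable def sr {n : ℕ} (G : SimpleGraph (Fin n)) (r : ℕ) : ℕ :=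
  sSup {s : ℕ | HasK G r s}

/-- `f(G)`: the maximum of `s_r(G) / (n / 2^r)` over `r ≥ 1` with `r 2^r < n`. -/
noncomputable def f {n : ℕ} (G : SimpleGraph (Fin n)) : ℝ :=
  sSup {x : ℝ | ∃ r : ℕ, 1 ≤ r ∧ r * 2 ^ r < n ∧ x = (sr G r : ℝ) / ((n : ℝ) / 2 ^ r)}

/-- `A(n)`: the minimum of `f(G)` over the graphs with `n` vertices and `⌊n²/4⌋` edges. -/
noncomputable def A (n : ℕ) : ℝ :=
  sInf {x : ℝ | ∃ G : SimpleGraph (Fin n), G.edgeSet.ncard = n ^ 2 / 4 ∧ x = f G}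

end Pool.Agent.Results.MP_58acf5_co.LowerBound
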