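import Pool.Agent.H98.LBA.Defs

namespace Pool.Agent.Results.MP_58acf5_co.LowerBound

open Finset

section counting

open Classical

variable {n : ℕ} (G : SimpleGraph (Fin n))

/-- common neighbours of `R` -/
noncomputable def nb (R : Finset (Fin n)) : Finset (Fin n) :=
  univ.filter (fun y => ∀ v ∈ R, G.Adj v y)

/-- common neighbours of `Q` in `B` -/
noncomputable def nbA (B Q : Finset (Fin n)) : Finset (Fin n) :=
  B.filter (fun v => ∀ y ∈ Q, G.Adj v y)

theorem choose_nbA (B Q : Finset (Fin n)) (r : ℕ) :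
    (nbA G B Q).card.choose r =
      ((powersetCard r B).filter (fun R => ∀ v ∈ R, ∀ y ∈ Q, G.Adj v y)).card := by
  rw [← card_powersetCard]
  congr 1
  ext R
  simp only [mem_powersetCard, mem_filter, nbA, subset_iff]
  constructor
  · rintro ⟨h1, h2⟩
    exact ⟨⟨fun x hx => (h1 hx).1, h2⟩, fun v hv => (h1 hv).2⟩
  · rintro ⟨⟨h1, h2⟩, h3⟩
    exact ⟨fun x hx => ⟨h1 hx, h3 x hx⟩, h2⟩

theorem choose_nb (R : Finset (Fin n)) (k : ℕ) :
    (nb G R).card.choose k =
      ((powersetCard k (univ : Finset (Fin n))).filter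
        (fun Q => ∀ v ∈ R, ∀ y ∈ Q, G.Adj v y)).card := by
  rw [← card_powersetCard]
  congr 1
  ext Q
  simp only [mem_powersetCard, mem_filter, nb, subset_iff, mem_univ, true_and, implies_true]
  constructor
  · rintro ⟨h1, h2⟩
    exact ⟨h2, fun v hv y hy => h1 hy v hv⟩
  · rintro ⟨h2, h3⟩
    exact ⟨fun x hx v hv => h3 v hv x hx, h2⟩

theorem count1 (B : Finset (Fin n)) (r k : ℕ) :
    ∑ Q ∈ powersetCard k (univ : Finset (Fin n)), (nbA G B Q).card.choose r =
      ∑ R ∈ powersetCard r B, (nb G R).card.choose k := by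
  have h := sum_card_bipartiteAbove_eq_sum_card_bipartiteBelow
    (s := powersetCard k (univ : Finset (Fin n))) (t := powersetCard r B)
    (fun Q R => ∀ v ∈ R, ∀ y ∈ Q, G.Adj v y)
  simp only [bipartiteAbove, bipartiteBelow] at h
  rw [sum_congr rfl (fun Q _ => choose_nbA G B Q r), h]
  exact sum_congr rfl (fun R _ => (choose_nb G R k).symm)

theorem count2 (B : Finset (Fin n)) (r k : ℕ) :
    ∑ Q ∈ powersetCard k (univ : Finset (Fin n)), ∑ y ∈ univ \ Q,
        (nbA G B (insert y Q)).card.choose r =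
      ∑ R ∈ powersetCard r B, (nb G R).card.choose k * ((nb G R).card - k) := by
  have h1 : ∀ Q ∈ powersetCard k (univ : Finset (Fin n)), ∑ y ∈ univ \ Q,
        (nbA G B (insert y Q)).card.choose r =
      ∑ R ∈ powersetCard r B, ∑ y ∈ univ \ Q,
        if (∀ v ∈ R, ∀ z ∈ insert y Q, G.Adj v z) then 1 else 0 := by
    intro Q _
    rw [sum_comm]
    refine sum_congr rfl (fun y _ => ?_)
    rw [choose_nbA, card_filter]
  rw [sum_congr rfl h1, sum_comm]
  refine sum_congr rfl (fun R _ => ?_)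
  have h2 : ∀ Q ∈ powersetCard k (univ : Finset (Fin n)),
      (∑ y ∈ univ \ Q, if (∀ v ∈ R, ∀ z ∈ insert y Q, G.Adj v z) then 1 else 0) =
        if (∀ v ∈ R, ∀ z ∈ Q, G.Adj v z) then ((nb G R).card - k) else 0 := by
    intro Q hQ
    rw [mem_powersetCard] at hQ
    by_cases hc : ∀ v ∈ R, ∀ z ∈ Q, G.Adj v z
    · rw [if_pos hc, ← card_filter]
      have hsub : Q ⊆ nb G R := by
        intro z hz
        simp only [nb, mem_filter, mem_univ, true_and]
        exact fun v hv => hc v hv z hz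
      have h3 : (univ \ Q).filter (fun y => ∀ v ∈ R, ∀ z ∈ insert y Q, G.Adj v z) =
          nb G R \ Q := by
        ext y
        simp only [mem_filter, mem_sdiff, mem_univ, true_and, nb, mem_insert]
        constructor
        · rintro ⟨h4, h5⟩
          exact ⟨fun v hv => h5 v hv y (Or.inl rfl), h4⟩
        · rintro ⟨h4, h5⟩
          refine ⟨h5, fun v hv z hz => ?_⟩
          rcases hz with rfl | hz
          · exact h4 v hv
          · exact hc v hv z hz
      rw [h3, card_sdiff_of_subset hsub, hQ.2]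
    · rw [if_neg hc]
      apply sum_eq_zero
      intro y _
      rw [if_neg]
      intro h6
      exact hc (fun v hv z hz => h6 v hv z (mem_insert_of_mem hz))
  rw [sum_congr rfl h2, ← sum_filter, sum_const, ← choose_nb, smul_eq_mul]

/-- convexity of binomial coefficients, in the form that we need -/
theorem conv {ι : Type*} (I : Finset ι) (g : ι → ℕ) (r : ℕ) (hr : 1 ≤ r) (c : ℝ) (hc : 0 ≤ c)
    (hI : 0 < I.card) (h : c * I.card ≤ ∑ i ∈ I, (g i : ℝ) - r * I.card) :
    (I.card : ℝ) * c ^ r ≤ (r.factorial : ℝ) * ∑ i ∈ I, ((g i).choose r : ℝ) := by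
  obtain ⟨m, rfl⟩ : ∃ m, r = m + 1 := ⟨r - 1, by omega⟩
  have hIr : (0 : ℝ) < I.card := by exact_mod_cast hI
  have h1 : ∀ i ∈ I, (max ((g i : ℝ) - (m + 1 : ℕ)) 0) ^ (m + 1) ≤
      ((m + 1).factorial : ℝ) * ((g i).choose (m + 1) : ℝ) := by
    intro i _
    rw [← Nat.cast_mul, ← Nat.descFactorial_eq_factorial_mul_choose]
    have h2 := Nat.pow_sub_le_descFactorial (g i) (m + 1)
    have h3 : max ((g i : ℝ) - (m + 1 : ℕ)) 0 ≤ ((g i + 1 - (m + 1) : ℕ) : ℝ) := by
      rcases le_total (m + 1) (g i) with h | h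
      · rw [Nat.cast_sub (by omega)]
        push_cast
        apply max_le
        · linarith
        · have : ((m + 1 : ℕ) : ℝ) ≤ g i := by exact_mod_cast h
          push_cast at this
          linarith
      · apply max_le
        · have : ((g i : ℕ) : ℝ) ≤ (m + 1 : ℕ) := by exact_mod_cast h
          have h5 : (0 : ℝ) ≤ ((g i + 1 - (m + 1) : ℕ) : ℝ) := Nat.cast_nonneg _
          linarith
        · exact Nat.cast_nonneg _
    calc (max ((g i : ℝ) - (m + 1 : ℕ)) 0) ^ (m + 1)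
        ≤ ((g i + 1 - (m + 1) : ℕ) : ℝ) ^ (m + 1) :=
          pow_le_pow_left₀ (le_max_right _ _) h3 _
      _ ≤ _ := by exact_mod_cast h2
  rw [mul_sum]
  refine le_trans ?_ (sum_le_sum h1)
  refine le_trans ?_ (pow_sum_div_card_le_sum_pow (fun i _ => le_max_right _ _) m)
  have h4 : c * I.card ≤ ∑ i ∈ I, max ((g i : ℝ) - (m + 1 : ℕ)) 0 := by
    refine h.trans ?_
    have : ∑ i ∈ I, (g i : ℝ) - ((m + 1 : ℕ) : ℝ) * I.card =
        ∑ i ∈ I, ((g i : ℝ) - (m + 1 : ℕ)) := by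
      rw [sum_sub_distrib, sum_const, nsmul_eq_mul]
      ring
    rw [this]
    exact sum_le_sum (fun i _ => le_max_left _ _)
  have h5 : (c * I.card) ^ (m + 1) ≤ (∑ i ∈ I, max ((g i : ℝ) - (m + 1 : ℕ)) 0) ^ (m + 1) :=
    pow_le_pow_left₀ (by positivity) h4 _
  rw [le_div_iff₀ (by positivity)]
  refine le_trans (le_of_eq ?_) h5
  rw [mul_pow]
  ring

theorem main_ineq (B : Finset (Fin n)) (r k s : ℕ) (hr : 1 ≤ r) (D Y0 : ℝ) (hkn : k < n)
    (hD : ∀ v ∈ B, D ≤ G.degree v) (hs : ∀ R ∈ powersetCard r B, (nb G R).card ≤ s)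
    (hY0 : 0 < Y0) (hDk : (k : ℝ) ≤ D) (hq : 0 ≤ (D - k) / n - r / Y0)
    (hν : 2 * Y0 + r ≤ B.card * ((D - k) / n) ^ k) :
    ((n : ℝ) - k) * ((D - k) / n - r / Y0) ^ r * (1 - (1 / 2) ^ r) ≤ ((s - k : ℕ) : ℝ) := by
  have hn : (0 : ℝ) < n := by
    have : 0 < n := by omega
    exact_mod_cast this
  set q : ℝ := (D - k) / n - r / Y0 with hqdef
  set P := powersetCard k (univ : Finset (Fin n)) with hP
  set Y : Finset (Fin n) → ℕ := fun Q => (nbA G B Q).card with hY
  set T : ℝ := ∑ Q ∈ P, ((Y Q).choose r : ℝ) with hT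
  have hPcard : P.card = n.choose k := by rw [hP, card_powersetCard, card_univ, Fintype.card_fin]
  have hPpos : 0 < P.card := by
    rw [hPcard]
    exact Nat.choose_pos hkn.le
  have hPposR : (0 : ℝ) < P.card := by exact_mod_cast hPpos
  have hrf : (0 : ℝ) < (r.factorial : ℝ) := by exact_mod_cast Nat.factorial_pos r
  -- (a)
  have ha : (∑ Q ∈ P, ∑ y ∈ univ \ Q, (((nbA G B (insert y Q)).card.choose r : ℕ) : ℝ)) ≤
      ((s - k : ℕ) : ℝ) * T := by
    have h1 := count2 G B r k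
    have h2 := count1 G B r k
    have h3 : ∑ R ∈ powersetCard r B, (nb G R).card.choose k * ((nb G R).card - k) ≤
        (s - k) * ∑ R ∈ powersetCard r B, (nb G R).card.choose k := by
      rw [mul_sum]
      apply sum_le_sum
      intro R hR
      rw [mul_comm]
      exact Nat.mul_le_mul_right _ (Nat.sub_le_sub_right (hs R hR) k)
    rw [← h1, ← h2] at h3
    have h4 : ((∑ Q ∈ P, ∑ y ∈ univ \ Q, (nbA G B (insert y Q)).card.choose r : ℕ) : ℝ) ≤
      (((s - k) * ∑ Q ∈ P, (nbA G B Q).card.choose r : ℕ) : ℝ) := by exact_mod_cast h3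
    push_cast at h4
    simpa [hT, hY] using h4
  -- (b)
  have hb : ∀ Q ∈ P, Y0 ≤ Y Q → ((n : ℝ) - k) * q ^ r * ((Y Q).choose r : ℝ) ≤
      ∑ y ∈ univ \ Q, (((nbA G B (insert y Q)).card.choose r : ℕ) : ℝ) := by
    intro Q hQ hYQ
    have hQc : Q.card = k := (mem_powersetCard.1 hQ).2
    have hBc : (univ \ Q).card = n - k := by
      rw [card_sdiff_of_subset (subset_univ _), card_univ, Fintype.card_fin, hQc]
    have hBr : ((univ \ Q).card : ℝ) = (n : ℝ) - k := by
      rw [hBc, Nat.cast_sub hkn.le]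
    have hYpos : (0 : ℝ) < Y Q := lt_of_lt_of_le hY0 hYQ
    -- sum of the a_y
    have hsum : (Y Q : ℝ) * (D - k) ≤ ∑ y ∈ univ \ Q, ((nbA G B (insert y Q)).card : ℝ) := by
      have h1 : ∑ y ∈ univ \ Q, (nbA G B (insert y Q)).card =
          ∑ v ∈ nbA G B Q, ((univ \ Q).filter (fun y => G.Adj v y)).card := by
        have h := sum_card_bipartiteAbove_eq_sum_card_bipartiteBelow
          (s := univ \ Q) (t := nbA G B Q) (fun y v => G.Adj v y)
        simp only [bipartiteAbove, bipartiteBelow] at h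
        rw [← h]
        refine sum_congr rfl (fun y _ => ?_)
        congr 1
        ext v
        simp only [nbA, mem_filter, mem_insert]
        constructor
        · rintro ⟨h1, h2⟩
          exact ⟨⟨h1, fun z hz => h2 z (Or.inr hz)⟩, h2 y (Or.inl rfl)⟩
        · rintro ⟨⟨h1, h2⟩, h3⟩
          refine ⟨h1, fun z hz => ?_⟩
          rcases hz with rfl | hz
          · exact h3
          · exact h2 z hz
      have h2 : ∀ v ∈ nbA G B Q, (D - k : ℝ) ≤
          (((univ \ Q).filter (fun y => G.Adj v y)).card : ℝ) := by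
        intro v hv
        simp only [nbA, mem_filter] at hv
        have h3 : (univ \ Q).filter (fun y => G.Adj v y) = G.neighborFinset v \ Q := by
          ext y
          simp only [mem_filter, mem_sdiff, mem_univ, true_and, SimpleGraph.mem_neighborFinset]
          tauto
        have h4 : Q ⊆ G.neighborFinset v := by
          intro y hy
          rw [SimpleGraph.mem_neighborFinset]
          exact hv.2 y hy
        rw [h3, card_sdiff_of_subset h4, hQc, Nat.cast_sub]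
        · have := hD v hv.1
          rw [SimpleGraph.card_neighborFinset_eq_degree]
          linarith
        · rw [← hQc]
          exact card_le_card h4
      have h5 : (∑ y ∈ univ \ Q, ((nbA G B (insert y Q)).card : ℝ)) =
          ∑ v ∈ nbA G B Q, (((univ \ Q).filter (fun y => G.Adj v y)).card : ℝ) := by
        exact_mod_cast h1
      rw [h5]
      calc (Y Q : ℝ) * (D - k) = ∑ v ∈ nbA G B Q, (D - k : ℝ) := by
            rw [sum_const, nsmul_eq_mul]
        _ ≤ _ := sum_le_sum h2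
    have hc := conv (univ \ Q) (fun y => (nbA G B (insert y Q)).card) r hr ((Y Q : ℝ) * q)
      (by positivity) (by rw [hBc]; omega) (by
        have hnk : (0 : ℝ) ≤ (n : ℝ) - k := by
          have : (k : ℝ) ≤ n := by exact_mod_cast hkn.le
          linarith
        have h1 : ((n : ℝ) - k) * ((Y Q : ℝ) * ((D - k) / n)) ≤ (Y Q : ℝ) * (D - k) := by
          have h2 : ((n : ℝ) - k) / n ≤ 1 := by
            rw [div_le_one hn]
            have : (0 : ℝ) ≤ k := Nat.cast_nonneg k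
            linarith
          have h3 : (0 : ℝ) ≤ (Y Q : ℝ) * (D - k) := mul_nonneg hYpos.le (by linarith)
          calc ((n : ℝ) - k) * ((Y Q : ℝ) * ((D - k) / n))
              = (((n : ℝ) - k) / n) * ((Y Q : ℝ) * (D - k)) := by field_simp
            _ ≤ 1 * ((Y Q : ℝ) * (D - k)) := mul_le_mul_of_nonneg_right h2 h3
            _ = _ := one_mul _
        have h4 : (r : ℝ) ≤ (Y Q : ℝ) * (r / Y0) := by
          rw [mul_div_assoc', le_div_iff₀ hY0, mul_comm]
          exact mul_le_mul_of_nonneg_right hYQ (Nat.cast_nonneg r)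
        rw [hBr]
        have h6 : (Y Q : ℝ) * q * ((n : ℝ) - k) = ((n : ℝ) - k) * ((Y Q : ℝ) * ((D - k) / n)) -
            ((n : ℝ) - k) * ((Y Q : ℝ) * (r / Y0)) := by
          rw [hqdef]
          ring
        rw [h6]
        have h7 : ((n : ℝ) - k) * r ≤ ((n : ℝ) - k) * ((Y Q : ℝ) * (r / Y0)) :=
          mul_le_mul_of_nonneg_left h4 hnk
        have h8 := hsum
        linarith)
    rw [hBr] at hc
    have h9 : ((Y Q).choose r : ℝ) * r.factorial ≤ (Y Q : ℝ) ^ r := by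
      have h10 := Nat.descFactorial_le_pow (Y Q) r
      rw [Nat.descFactorial_eq_factorial_mul_choose] at h10
      have h11 : ((r.factorial * (Y Q).choose r : ℕ) : ℝ) ≤ ((Y Q ^ r : ℕ) : ℝ) := by
        exact_mod_cast h10
      push_cast at h11
      linarith
    have hnk : (0 : ℝ) ≤ (n : ℝ) - k := by
      have : (k : ℝ) ≤ n := by exact_mod_cast hkn.le
      linarith
    have h12 : (r.factorial : ℝ) * (((n : ℝ) - k) * q ^ r * ((Y Q).choose r : ℝ)) ≤
        (r.factorial : ℝ) * ∑ y ∈ univ \ Q, (((nbA G B (insert y Q)).card.choose r : ℕ) : ℝ) := by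
      refine le_trans ?_ hc
      rw [mul_pow]
      have h13 : (0 : ℝ) ≤ ((n : ℝ) - k) * q ^ r := mul_nonneg hnk (pow_nonneg hq r)
      have h14 := mul_le_mul_of_nonneg_left h9 h13
      linarith
    exact le_of_mul_le_mul_left h12 hrf
  -- (c)
  have hc : (P.card : ℝ) * (2 * Y0) ^ r ≤ (r.factorial : ℝ) * T := by
    refine conv P Y r hr (2 * Y0) (by positivity) hPpos ?_
    have h1 : (∑ Q ∈ P, (Y Q : ℝ)) = ∑ v ∈ B, ((G.degree v).choose k : ℝ) := by
      have h2 := count1 G B 1 k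
      have h3 : ∑ Q ∈ P, Y Q = ∑ v ∈ B, (G.degree v).choose k := by
        calc ∑ Q ∈ P, Y Q = ∑ Q ∈ P, (nbA G B Q).card.choose 1 := by
              simp [hY]
          _ = ∑ R ∈ powersetCard 1 B, (nb G R).card.choose k := h2
          _ = ∑ v ∈ B, (G.degree v).choose k := by
              rw [powersetCard_one, sum_map]
              refine sum_congr rfl (fun v _ => ?_)
              congr 1
              rw [← SimpleGraph.card_neighborFinset_eq_degree]
              congr 1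
              ext y
              simp [nb]
      exact_mod_cast h3
    have h2 : (B.card : ℝ) * ((D - k) ^ k) ≤
        (k.factorial : ℝ) * ∑ v ∈ B, ((G.degree v).choose k : ℝ) := by
      rw [mul_sum, ← nsmul_eq_mul, ← sum_const]
      refine sum_le_sum (fun v hv => ?_)
      have h3 := Nat.pow_sub_le_descFactorial (G.degree v) k
      rw [Nat.descFactorial_eq_factorial_mul_choose] at h3
      have h4 : (((G.degree v + 1 - k) ^ k : ℕ) : ℝ) ≤
          ((k.factorial * (G.degree v).choose k : ℕ) : ℝ) := by exact_mod_cast h3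
      push_cast at h4
      refine le_trans (pow_le_pow_left₀ (by linarith) ?_ k) h4
      have h5 := hD v hv
      have h6 : (k : ℝ) ≤ G.degree v := hDk.trans h5
      have h7 : k ≤ G.degree v := by exact_mod_cast h6
      rw [Nat.cast_sub (by omega)]
      push_cast
      linarith
    have h3 : (k.factorial : ℝ) * P.card ≤ (n : ℝ) ^ k := by
      rw [hPcard]
      have h4 := Nat.descFactorial_le_pow n k
      rw [Nat.descFactorial_eq_factorial_mul_choose] at h4
      exact_mod_cast h4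
    have hkf : (0 : ℝ) < (k.factorial : ℝ) := by exact_mod_cast Nat.factorial_pos k
    have h4 : (k.factorial : ℝ) * ((2 * Y0 + r) * P.card) ≤
        (k.factorial : ℝ) * ∑ v ∈ B, ((G.degree v).choose k : ℝ) := by
      have hx : (0 : ℝ) ≤ (B.card : ℝ) * ((D - k) / n) ^ k := by
        have : (0 : ℝ) ≤ D - k := by linarith
        positivity
      calc (k.factorial : ℝ) * ((2 * Y0 + r) * P.card)
          = (2 * Y0 + r) * ((k.factorial : ℝ) * P.card) := by ring
        _ ≤ (B.card * ((D - k) / n) ^ k) * ((k.factorial : ℝ) * P.card) :=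
            mul_le_mul_of_nonneg_right hν (by positivity)
        _ ≤ (B.card * ((D - k) / n) ^ k) * (n : ℝ) ^ k := mul_le_mul_of_nonneg_left h3 hx
        _ = (B.card : ℝ) * ((D - k) ^ k) := by
            rw [div_pow]
            field_simp
        _ ≤ _ := h2
    have h5 := le_of_mul_le_mul_left h4 hkf
    rw [h1]
    linarith
  -- (d)
  have hd : ∑ Q ∈ P.filter (fun Q => ¬ (Y0 ≤ Y Q)), ((Y Q).choose r : ℝ) ≤ (1 / 2) ^ r * T := by
    have h1 : ∀ Q ∈ P.filter (fun Q => ¬ (Y0 ≤ Y Q)), ((Y Q).choose r : ℝ) ≤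
        Y0 ^ r / r.factorial := by
      intro Q hQ
      rw [mem_filter, not_le] at hQ
      rw [le_div_iff₀ hrf]
      have h10 := Nat.descFactorial_le_pow (Y Q) r
      rw [Nat.descFactorial_eq_factorial_mul_choose] at h10
      have h11 : ((r.factorial * (Y Q).choose r : ℕ) : ℝ) ≤ ((Y Q ^ r : ℕ) : ℝ) := by
        exact_mod_cast h10
      push_cast at h11
      have h12 : ((Y Q : ℕ) : ℝ) ^ r ≤ Y0 ^ r := pow_le_pow_left₀ (Nat.cast_nonneg _) hQ.2.le r
      linarith
    calc ∑ Q ∈ P.filter (fun Q => ¬ (Y0 ≤ Y Q)), ((Y Q).choose r : ℝ)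
        ≤ ∑ Q ∈ P.filter (fun Q => ¬ (Y0 ≤ Y Q)), Y0 ^ r / r.factorial := sum_le_sum h1
      _ = ((P.filter (fun Q => ¬ (Y0 ≤ Y Q))).card : ℝ) * (Y0 ^ r / r.factorial) := by
          rw [sum_const, nsmul_eq_mul]
      _ ≤ (P.card : ℝ) * (Y0 ^ r / r.factorial) := by
          apply mul_le_mul_of_nonneg_right _ (by positivity)
          exact_mod_cast card_filter_le _ _
      _ ≤ (1 / 2) ^ r * T := by
          rw [mul_div_assoc', div_le_iff₀ hrf]
          have h3 : (1 / 2 : ℝ) ^ r * ((P.card : ℝ) * (2 * Y0) ^ r) ≤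
              (1 / 2 : ℝ) ^ r * ((r.factorial : ℝ) * T) :=
            mul_le_mul_of_nonneg_left hc (by positivity)
          have h4 : (1 / 2 : ℝ) ^ r * ((P.card : ℝ) * (2 * Y0) ^ r) = (P.card : ℝ) * Y0 ^ r := by
            rw [mul_pow, one_div, inv_pow]
            field_simp
          linarith
  -- (e)
  have hTpos : 0 < T := by
    have h1 : 0 < (P.card : ℝ) * (2 * Y0) ^ r := by positivity
    have h2 := lt_of_lt_of_le h1 hc
    exact (mul_pos_iff_of_pos_left hrf).1 h2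
  have hnk : (0 : ℝ) ≤ (n : ℝ) - k := by
    have : (k : ℝ) ≤ n := by exact_mod_cast hkn.le
    linarith
  have hfin : ((n : ℝ) - k) * q ^ r * (1 - (1 / 2) ^ r) * T ≤ ((s - k : ℕ) : ℝ) * T := by
    refine le_trans ?_ ha
    have h1 : ∑ Q ∈ P.filter (fun Q => Y0 ≤ Y Q), ((Y Q).choose r : ℝ) +
        ∑ Q ∈ P.filter (fun Q => ¬ (Y0 ≤ Y Q)), ((Y Q).choose r : ℝ) = T :=
      sum_filter_add_sum_filter_not P _ _
    have h2 : (1 - (1 / 2) ^ r) * T ≤ ∑ Q ∈ P.filter (fun Q => Y0 ≤ Y Q), ((Y Q).choose r : ℝ) := by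
      linarith
    have h13 : (0 : ℝ) ≤ ((n : ℝ) - k) * q ^ r := mul_nonneg hnk (pow_nonneg hq r)
    calc ((n : ℝ) - k) * q ^ r * (1 - (1 / 2) ^ r) * T
        = ((n : ℝ) - k) * q ^ r * ((1 - (1 / 2) ^ r) * T) := by ring
      _ ≤ ((n : ℝ) - k) * q ^ r *
          ∑ Q ∈ P.filter (fun Q => Y0 ≤ Y Q), ((Y Q).choose r : ℝ) :=
          mul_le_mul_of_nonneg_left h2 h13
      _ = ∑ Q ∈ P.filter (fun Q => Y0 ≤ Y Q), ((n : ℝ) - k) * q ^ r * ((Y Q).choose r : ℝ) := by
          rw [mul_sum]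
      _ ≤ ∑ Q ∈ P.filter (fun Q => Y0 ≤ Y Q),
          ∑ y ∈ univ \ Q, (((nbA G B (insert y Q)).card.choose r : ℕ) : ℝ) := by
          refine sum_le_sum (fun Q hQ => ?_)
          rw [mem_filter] at hQ
          exact hb Q hQ.1 hQ.2
      _ ≤ _ := by
          refine sum_le_sum_of_subset_of_nonneg (filter_subset _ _) (fun Q _ _ => ?_)
          exact sum_nonneg (fun y _ => Nat.cast_nonneg _)
  exact le_of_mul_le_mul_right hfin hTpos

end counting

theorem HasK.bound {n : ℕ} {G : SimpleGraph (Fin n)} {r s : ℕ} (h : HasK G r s) : s ≤ n := by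
  obtain ⟨R, S, _, h2, _, _⟩ := h
  rw [← h2]
  exact (card_le_univ S).trans (by rw [Fintype.card_fin])

theorem sr_bdd {n : ℕ} (G : SimpleGraph (Fin n)) (r : ℕ) : BddAbove {s : ℕ | HasK G r s} :=
  ⟨n, fun _ hs => HasK.bound hs⟩

theorem le_sr {n : ℕ} {G : SimpleGraph (Fin n)} {r s : ℕ} (h : HasK G r s) : s ≤ sr G r :=
  le_csSup (sr_bdd G r) h

theorem sr_le {n : ℕ} (G : SimpleGraph (Fin n)) (r : ℕ) : sr G r ≤ n := by
  rcases Set.eq_empty_or_nonempty {s : ℕ | HasK G r s} with h | h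
  · unfold sr
    rw [h]
    simp
  · exact csSup_le h (fun _ hs => HasK.bound hs)

open Classical in
theorem nb_le_sr {n : ℕ} (G : SimpleGraph (Fin n)) (R : Finset (Fin n)) :
    (nb G R).card ≤ sr G R.card := by
  apply le_sr
  refine ⟨R, nb G R, rfl, rfl, ?_, ?_⟩
  · rw [disjoint_left]
    intro x hx hx'
    simp only [nb, mem_filter, mem_univ, true_and] at hx'
    exact G.irrefl (hx' x hx)
  · intro x hx y hy
    simp only [nb, mem_filter, mem_univ, true_and] at hy
    exact hy x hx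

theorem f_bdd {n : ℕ} (G : SimpleGraph (Fin n)) :
    BddAbove {x : ℝ | ∃ r : ℕ, 1 ≤ r ∧ r * 2 ^ r < n ∧
      x = (sr G r : ℝ) / ((n : ℝ) / 2 ^ r)} := by
  refine ⟨(n : ℝ), ?_⟩
  rintro x ⟨r, hr1, hr2, rfl⟩
  have hn : (0 : ℝ) < n := by
    have : 0 < n := by omega
    exact_mod_cast this
  have h1 : (sr G r : ℝ) ≤ n := by exact_mod_cast sr_le G r
  have h2 : (2 : ℝ) ^ r ≤ n := by
    have : 2 ^ r ≤ n := by
      calc 2 ^ r = 1 * 2 ^ r := (one_mul _).symm
        _ ≤ r * 2 ^ r := Nat.mul_le_mul_right _ hr1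
        _ ≤ n := hr2.le
    exact_mod_cast this
  rw [div_div_eq_mul_div, div_le_iff₀ hn]
  exact mul_le_mul h1 h2 (by positivity) hn.le

theorem le_f {n : ℕ} (G : SimpleGraph (Fin n)) (r : ℕ) (h1 : 1 ≤ r) (h2 : r * 2 ^ r < n) :
    (sr G r : ℝ) / ((n : ℝ) / 2 ^ r) ≤ f G :=
  le_csSup (f_bdd G) ⟨r, h1, h2, rfl⟩

theorem exists_graph (n : ℕ) : ∃ G : SimpleGraph (Fin n), G.edgeSet.ncard = n ^ 2 / 4 := by
  classical
  have h1 : n ^ 2 / 4 ≤ (⊤ : SimpleGraph (Fin n)).edgeFinset.card := by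
    rw [SimpleGraph.card_edgeFinset_top_eq_card_choose_two, Fintype.card_fin, Nat.choose_two_right]
    rcases Nat.lt_or_ge n 2 with h | h
    · interval_cases n <;> simp
    · obtain ⟨m, rfl⟩ : ∃ m, n = m + 2 := ⟨n - 2, by omega⟩
      have h3 : (m + 2) ^ 2 ≤ 2 * ((m + 2) * (m + 2 - 1)) := by
        have : m + 2 - 1 = m + 1 := by omega
        rw [this]
        nlinarith
      omega
  obtain ⟨s, hs1, hs2⟩ := exists_subset_card_eq h1
  refine ⟨SimpleGraph.fromEdgeSet (s : Set (Sym2 (Fin n))), ?_⟩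
  have h2 : (SimpleGraph.fromEdgeSet (s : Set (Sym2 (Fin n)))).edgeSet = s := by
    rw [SimpleGraph.edgeSet_fromEdgeSet]
    ext e
    simp only [Set.mem_sdiff, mem_coe, and_iff_left_iff_imp]
    intro he hd
    have h3 := hs1 he
    rw [SimpleGraph.mem_edgeFinset] at h3
    exact (SimpleGraph.not_isDiag_of_mem_edgeSet _ h3) hd
  rw [h2, Set.ncard_coe_finset, hs2]

/-- the growth condition on `r` -/
theorem growth (p : ℕ) (hp : 0 < p) (C : ℝ) (hC : 0 < C) :
    ∃ r0 : ℕ, ∀ r ≥ r0, C * (r : ℝ) ^ 3 ≤ 2 ^ (r / p) := by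
  have h1 := tendsto_pow_const_div_const_pow_of_one_lt 3 (r := (2 : ℝ)) one_lt_two
  have hcp : (0 : ℝ) < 1 / (2 * C * (p : ℝ) ^ 3) := by positivity
  have h2 := (h1.eventually (gt_mem_nhds hcp))
  obtain ⟨m0, hm0⟩ := Filter.eventually_atTop.1 h2
  refine ⟨p * m0, fun r hr => ?_⟩
  have h3 : m0 ≤ r / p := by
    rw [Nat.le_div_iff_mul_le hp, mul_comm]
    exact hr
  have h4 := hm0 (r / p + 1) (by omega)
  have h5 : r < p * (r / p + 1) := by
    have := Nat.lt_mul_div_succ r hp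
    simpa using this
  have h6 : (r : ℝ) ≤ (p : ℝ) * ((r / p + 1 : ℕ) : ℝ) := by exact_mod_cast h5.le
  have h7 : (r : ℝ) ^ 3 ≤ (p : ℝ) ^ 3 * ((r / p + 1 : ℕ) : ℝ) ^ 3 := by
    rw [← mul_pow]
    exact pow_le_pow_left₀ (Nat.cast_nonneg r) h6 3
  rw [div_lt_div_iff₀ (by positivity) (by positivity)] at h4
  have h8 : (2 : ℝ) ^ (r / p + 1) = 2 * 2 ^ (r / p) := by rw [pow_succ]; ring
  rw [h8] at h4
  have h9 : C * (r : ℝ) ^ 3 ≤ C * ((p : ℝ) ^ 3 * ((r / p + 1 : ℕ) : ℝ) ^ 3) :=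
    mul_le_mul_of_nonneg_left h7 hC.le
  nlinarith

open Classical in
/-- many vertices have degree at least `D` -/
theorem card_large {n : ℕ} (G : SimpleGraph (Fin n)) (hG : G.edgeSet.ncard = n ^ 2 / 4)
    (η D r : ℝ) (hr : 0 < r) (hn : (0 : ℝ) < n) (hD : D = (n : ℝ) / 2 * (1 - η / r)) (hD0 : 0 ≤ D)
    (h6 : 6 ≤ (n : ℝ) * η / (4 * r)) (hn1 : (1 : ℝ) ≤ n) :
    (n : ℝ) * η / (4 * r) ≤ ((univ.filter (fun v => D ≤ G.degree v)).card : ℝ) := by
  set B : Finset (Fin n) := univ.filter (fun v => D ≤ G.degree v) with hB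
  have hedge : (G.edgeFinset.card : ℕ) = n ^ 2 / 4 := by
    rw [← hG, ← SimpleGraph.coe_edgeFinset, Set.ncard_coe_finset]
  have h1 := SimpleGraph.sum_degrees_eq_twice_card_edges G
  have h2 : (n : ℝ) ^ 2 / 2 - 3 / 2 ≤ ∑ v, (G.degree v : ℝ) := by
    have h3 : n ^ 2 ≤ 4 * (n ^ 2 / 4) + 3 := by omega
    have h4 : ((n ^ 2 : ℕ) : ℝ) ≤ ((4 * (n ^ 2 / 4) + 3 : ℕ) : ℝ) := by exact_mod_cast h3
    have h5 : (∑ v, (G.degree v : ℝ)) = 2 * ((n ^ 2 / 4 : ℕ) : ℝ) := by
      rw [← hedge]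
      exact_mod_cast h1
    rw [h5]
    push_cast at h4 ⊢
    linarith
  have h3 : ∑ v, (G.degree v : ℝ) ≤ B.card * n + ((n : ℝ) - B.card) * D := by
    have h4 : ∑ v ∈ B, (G.degree v : ℝ) + ∑ v ∈ univ.filter (fun v => ¬ (D ≤ G.degree v)),
        (G.degree v : ℝ) = ∑ v, (G.degree v : ℝ) := sum_filter_add_sum_filter_not univ _ _
    rw [← h4]
    have h5 : ∑ v ∈ B, (G.degree v : ℝ) ≤ B.card * n := by
      rw [← nsmul_eq_mul, ← sum_const]
      refine sum_le_sum (fun v _ => ?_)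
      have h6 : G.degree v ≤ n := by
        have := (G.degree_lt_card_verts v).le
        rwa [Fintype.card_fin] at this
      exact_mod_cast h6
    have h6 : ∑ v ∈ univ.filter (fun v => ¬ (D ≤ G.degree v)), (G.degree v : ℝ) ≤
        ((n : ℝ) - B.card) * D := by
      have h7 : ((univ.filter (fun v => ¬ (D ≤ (G.degree v : ℝ)))).card : ℝ) =
          (n : ℝ) - B.card := by
        have h8 : B.card + (univ.filter (fun v => ¬ (D ≤ (G.degree v : ℝ)))).card =
            Fintype.card (Fin n) := by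
          rw [hB, card_filter_add_card_filter_not, card_univ]
        rw [Fintype.card_fin] at h8
        have h9 : ((B.card + (univ.filter (fun v => ¬ (D ≤ (G.degree v : ℝ)))).card : ℕ) : ℝ)
            = (n : ℝ) := by rw [h8]
        push_cast at h9
        linarith
      rw [← h7, ← nsmul_eq_mul, ← sum_const]
      refine sum_le_sum (fun v hv => ?_)
      rw [mem_filter, not_le] at hv
      exact hv.2.le
    linarith
  have h5 : 0 ≤ (B.card : ℝ) * D := by positivity
  have h61 : (n : ℝ) ^ 2 / 2 - n * D = (n : ℝ) * ((n : ℝ) * η / (2 * r)) := by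
    rw [hD]
    field_simp
    ring
  have h9 : (n : ℝ) * η / (2 * r) = 2 * ((n : ℝ) * η / (4 * r)) := by
    field_simp
    ring
  set w : ℝ := (n : ℝ) * η / (4 * r) with hw
  rw [h9] at h61
  have h8 : (n : ℝ) * w ≤ n * B.card := by nlinarith
  exact le_of_mul_le_mul_left h8 hn

/-- the average number of common neighbours of a `k`-set is large -/
theorem avg_large (n r k L η D b : ℝ) (j l : ℕ) (hj : (j : ℝ) = k) (hr : 0 < r) (hn : 0 < n)
    (hη0 : 0 < η) (hη1 : η ≤ 1 / 4) (hkr : k ≤ r) (hk0 : 0 ≤ k)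
    (hL : L = 2 ^ l) (hnL : r * L ≤ n * (1 / 2) ^ j)
    (hrkn : r * (k / n) ≤ 1 / 8) (hx : η / r + 2 * k / n ≤ 1)
    (hD : D = n / 2 * (1 - η / r)) (hb : n * η / (4 * r) ≤ b)
    (h24 : 24 / η * r ^ 3 ≤ L) (hr3 : r ≤ r ^ 3) :
    2 * r ^ 3 + r ≤ b * ((D - k) / n) ^ j := by
  have hLpos : 0 < L := by rw [hL]; positivity
  have h1 : (D - k) / n = 1 / 2 * (1 - (η / r + 2 * k / n)) := by
    rw [hD]
    field_simp
    ring
  have hηr0 : 0 < η / r := by positivity
  have h2 : (1 : ℝ) + (j : ℝ) * (-(η / r + 2 * k / n)) ≤ (1 + -(η / r + 2 * k / n)) ^ j := by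
    apply one_add_mul_le_pow
    linarith
  have h3 : (1 : ℝ) / 2 ≤ 1 + (j : ℝ) * (-(η / r + 2 * k / n)) := by
    rw [hj]
    have h4 : k * (η / r) ≤ η := by
      calc k * (η / r) ≤ r * (η / r) := mul_le_mul_of_nonneg_right hkr hηr0.le
        _ = η := by field_simp
    have h6 : k * (k / n) ≤ r * (k / n) := mul_le_mul_of_nonneg_right hkr (by positivity)
    have h7 : k * (-(η / r + 2 * k / n)) = -(k * (η / r)) - 2 * (k * (k / n)) := by ring
    rw [h7]
    linarith
  have h4 : (1 : ℝ) / 2 ≤ (1 - (η / r + 2 * k / n)) ^ j := by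
    have : (1 : ℝ) + -(η / r + 2 * k / n) = 1 - (η / r + 2 * k / n) := by ring
    rw [this] at h2
    linarith
  have h5 : (1 / 2 : ℝ) ^ j * (1 / 2) ≤ ((D - k) / n) ^ j := by
    rw [h1, mul_pow]
    exact mul_le_mul_of_nonneg_left h4 (by positivity)
  have h7 : η / 8 * L ≤ n * η / (4 * r) * ((1 / 2 : ℝ) ^ j * (1 / 2)) := by
    have h8 : n * η / (4 * r) * ((1 / 2 : ℝ) ^ j * (1 / 2)) =
        η / (8 * r) * (n * (1 / 2) ^ j) := by
      field_simp
      ring
    rw [h8]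
    calc η / 8 * L = η / (8 * r) * (r * L) := by field_simp
      _ ≤ _ := mul_le_mul_of_nonneg_left hnL (by positivity)
  have h9 : 2 * r ^ 3 + r ≤ η / 8 * L := by
    have h10 : η / 8 * (24 / η * r ^ 3) ≤ η / 8 * L :=
      mul_le_mul_of_nonneg_left h24 (by positivity)
    have h11 : η / 8 * (24 / η * r ^ 3) = 3 * r ^ 3 := by
      field_simp
      ring
    rw [h11] at h10
    linarith
  calc 2 * r ^ 3 + r ≤ η / 8 * L := h9
    _ ≤ n * η / (4 * r) * ((1 / 2 : ℝ) ^ j * (1 / 2)) := h7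
    _ ≤ n * η / (4 * r) * ((D - k) / n) ^ j :=
        mul_le_mul_of_nonneg_left h5 (by positivity)
    _ ≤ b * ((D - k) / n) ^ j :=
        mul_le_mul_of_nonneg_right hb (le_trans (by positivity) h5)

/-- final computation -/
theorem final_calc (n r k x μ s L ε q : ℝ) (j m : ℕ) (hn : 0 < n) (_hr : 0 < r) (hm : 0 < m)
    (hμ : μ = n / 2 ^ m) (_hμr : r < μ) (hk0 : 0 ≤ k) (hkn : k < n) (hrx : 0 ≤ r * x)
    (hrx1 : r * x < 1) (hmr : (m : ℝ) = r) (hx2 : x ≤ 2) (_hx0 : 0 ≤ x)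
    (hmain : (n - k) * q ^ m * (1 - (1 / 2) ^ m) ≤ ((j : ℕ) : ℝ))
    (hq : q = 1 / 2 * (1 - x))
    (hj : (j : ℝ) ≤ s - k ∨ j = 0) (herr : k / n + r * x + (1 / 2) ^ m ≤ 3 * ε / 4)
    (hkL : k = r - L) (hL : L ≤ μ * (ε / 4)) :
    μ + r - ε * μ ≤ s := by
  have h2m : (0 : ℝ) < 2 ^ m := by positivity
  have hμpos : 0 < μ := by rw [hμ]; positivity
  have h1 : 1 - r * x ≤ (1 - x) ^ m := by
    have h2 := one_add_mul_le_pow (a := -x) (by linarith) m
    have h3 : (1 : ℝ) + -x = 1 - x := by ring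
    rw [h3, hmr] at h2
    linarith
  have hkn1 : k / n < 1 := by
    rw [div_lt_one hn]
    exact hkn
  have hkn0 : 0 ≤ k / n := by positivity
  have hc : (0 : ℝ) < (1 / 2 : ℝ) ^ m := by positivity
  have hc' : (1 / 2 : ℝ) ^ m < 1 := pow_lt_one₀ (by norm_num) (by norm_num) (by omega)
  have h2 : μ * ((1 - k / n) * ((1 - r * x) * (1 - (1 / 2) ^ m))) ≤ (j : ℝ) := by
    refine le_trans ?_ hmain
    have h3 : (n - k) * q ^ m * (1 - (1 / 2) ^ m) =
        μ * ((1 - k / n) * ((1 - x) ^ m * (1 - (1 / 2) ^ m))) := by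
      rw [hμ, hq, mul_pow, one_div, inv_pow]
      field_simp
    rw [h3]
    apply mul_le_mul_of_nonneg_left _ hμpos.le
    apply mul_le_mul_of_nonneg_left _ (by linarith)
    apply mul_le_mul_of_nonneg_right h1
    linarith
  have h7 : 0 < μ * ((1 - k / n) * ((1 - r * x) * (1 - (1 / 2) ^ m))) := by
    have h11 : 0 < (1 : ℝ) - k / n := by linarith
    have h12 : 0 < 1 - r * x := by linarith
    have h13 : 0 < 1 - (1 / 2 : ℝ) ^ m := by linarith
    positivity
  rcases hj with hj | hj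
  · set c : ℝ := (1 / 2 : ℝ) ^ m with hcdef
    set a : ℝ := k / n with hadef
    set y : ℝ := r * x with hydef
    have h3 : 1 - (a + y + c) ≤ (1 - a) * ((1 - y) * (1 - c)) := by
      have h4 : 1 - (y + c) ≤ (1 - y) * (1 - c) := by nlinarith [mul_nonneg hrx hc.le]
      have h5 : (1 - y) * (1 - c) ≤ 1 := by
        have h6 : (1 - y) * (1 - c) ≤ 1 * 1 :=
          mul_le_mul (by linarith) (by linarith) (by linarith) (by norm_num)
        linarith
      have h6 : a * ((1 - y) * (1 - c)) ≤ a * 1 := mul_le_mul_of_nonneg_left h5 hkn0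
      linarith
    have h5 : μ * (1 - 3 * ε / 4) ≤ (j : ℝ) := by
      refine le_trans ?_ h2
      apply mul_le_mul_of_nonneg_left _ hμpos.le
      linarith
    have h6 : μ * (1 - 3 * ε / 4) = μ - 3 / 4 * (ε * μ) := by ring
    have h8 : μ * (ε / 4) = 1 / 4 * (ε * μ) := by ring
    rw [h6] at h5
    rw [h8] at hL
    linarith
  · rw [hj, Nat.cast_zero] at h2
    linarith

theorem core (ε : ℝ) (hε : 0 < ε) : ∃ r0 : ℕ, 1 ≤ r0 ∧ ∀ r ≥ r0, ∀ n : ℕ, r * 2 ^ r < n →
    ∀ G : SimpleGraph (Fin n), G.edgeSet.ncard = n ^ 2 / 4 →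
      1 + (r * 2 ^ r : ℝ) / n - ε ≤ (sr G r : ℝ) / ((n : ℝ) / 2 ^ r) := by
  classical
  -- parameters
  obtain ⟨p, hp⟩ := exists_nat_gt (4 / ε)
  have hp0 : 0 < p := by
    have h : (0 : ℝ) < 4 / ε := by positivity
    have : (0 : ℝ) < p := h.trans hp
    exact_mod_cast this
  have hp0R : (0 : ℝ) < p := by exact_mod_cast hp0
  have hp1 : 1 / (p : ℝ) ≤ ε / 4 := by
    rw [div_lt_iff₀ hε] at hp
    rw [div_le_div_iff₀ hp0R (by norm_num)]
    linarith
  obtain ⟨η, hη0, hη1, hη2⟩ : ∃ η : ℝ, 0 < η ∧ η ≤ 1 / 4 ∧ η ≤ ε / 4 :=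
    ⟨min (1 / 4) (ε / 4), lt_min (by norm_num) (by positivity), min_le_left _ _, min_le_right _ _⟩
  obtain ⟨ra, hra⟩ := growth p hp0 (24 / η) (by positivity)
  obtain ⟨rb, hrb⟩ := growth 1 one_pos (16 / ε) (by positivity)
  obtain ⟨rc, hrc⟩ := growth 1 one_pos 8 (by norm_num)
  obtain ⟨rd, hrd⟩ := exists_nat_gt (8 / ε)
  refine ⟨ra + rb + rc + rd + 8, by omega, ?_⟩
  intro r hr n hn G hG
  have hr4 : 8 ≤ r := by omega
  have hrpos : (0 : ℝ) < r := by
    have : 0 < r := by omega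
    exact_mod_cast this
  have hr4R : (8 : ℝ) ≤ r := by exact_mod_cast hr4
  have g1 := hra r (by omega)
  have g2 := hrb r (by omega)
  have g3 := hrc r (by omega)
  rw [Nat.div_one] at g2 g3
  have g4 : 8 / ε ≤ r := by
    have : (rd : ℝ) ≤ r := by exact_mod_cast (by omega : rd ≤ r)
    linarith
  have g4' : 2 / (r : ℝ) ≤ ε / 4 := by
    rw [div_le_iff₀ hε] at g4
    rw [div_le_div_iff₀ hrpos (by norm_num)]
    linarith
  clear hra hrb hrc hrd hp
  -- sizes
  obtain ⟨L, hL⟩ : ∃ L : ℕ, L = r / p := ⟨_, rfl⟩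
  rw [← hL] at g1
  have hLr : L ≤ r := by rw [hL]; exact Nat.div_le_self r p
  obtain ⟨k, hk⟩ : ∃ k : ℕ, k = r - L := ⟨_, rfl⟩
  have hkr : k ≤ r := by omega
  have hkrR : (k : ℝ) ≤ r := by exact_mod_cast hkr
  have hk0 : (0 : ℝ) ≤ k := Nat.cast_nonneg k
  have hkL : (k : ℝ) = r - L := by rw [hk, Nat.cast_sub hLr]
  have hnR : (r : ℝ) * 2 ^ r < n := by exact_mod_cast hn
  obtain ⟨E, hE⟩ : ∃ E : ℝ, E = 2 ^ r := ⟨_, rfl⟩
  have h2r : (0 : ℝ) < E := by rw [hE]; positivity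
  have hEL : (2 : ℝ) ^ L ≤ E := by rw [hE]; exact pow_le_pow_right₀ one_le_two hLr
  rw [← hE] at g2 g3 hnR
  have hsq1 : (r : ℝ) ≤ r ^ 2 := by nlinarith
  have hsq2 : (r : ℝ) ^ 2 ≤ r ^ 3 := by nlinarith [sq_nonneg (r : ℝ)]
  have hrr3 : (r : ℝ) ≤ r ^ 3 := hsq1.trans hsq2
  have hEn : E ≤ n := by nlinarith
  have hr8E : 8 * (r : ℝ) ≤ E := by linarith
  have hnpos : (0 : ℝ) < n := lt_of_lt_of_le h2r hEn
  have hn1 : (1 : ℝ) ≤ n := by linarith
  have hrn : 8 * (r : ℝ) ≤ n := hr8E.trans hEn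
  -- the degree threshold
  obtain ⟨D, hD⟩ : ∃ D : ℝ, D = (n : ℝ) / 2 * (1 - η / r) := ⟨_, rfl⟩
  have hηr : η / r ≤ 1 / 16 := by
    rw [div_le_iff₀ hrpos]
    linarith
  have hηr0 : 0 < η / r := by positivity
  have hDk : (k : ℝ) ≤ D := by
    have h1 : (n : ℝ) / 2 * (1 / 2) ≤ D := by
      rw [hD]
      apply mul_le_mul_of_nonneg_left _ (by positivity)
      linarith
    linarith
  have hBcard : (n : ℝ) * η / (4 * r) ≤
      ((univ.filter (fun v => D ≤ (G.degree v : ℝ))).card : ℝ) := by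
    apply card_large G hG η D r hrpos hnpos hD (le_trans hk0 hDk) _ hn1
    have h8 : 24 / η * (r : ℝ) ^ 3 ≤ n := by linarith
    have h9 : 24 * (r : ℝ) ^ 3 ≤ n * η := by
      rw [div_mul_eq_mul_div, div_le_iff₀ hη0] at h8
      linarith
    rw [le_div_iff₀ (by positivity)]
    linarith
  -- parameters for the main inequality
  have hY0pos : (0 : ℝ) < (r : ℝ) ^ 3 := by positivity
  have hkn2 : (k : ℝ) / n ≤ 1 / E := by
    rw [div_le_div_iff₀ hnpos h2r, one_mul]
    calc (k : ℝ) * E ≤ r * E := mul_le_mul_of_nonneg_right hkrR h2r.le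
      _ ≤ n := hnR.le
  have hrkn : (r : ℝ) * (k / n) ≤ r / E := by
    calc (r : ℝ) * (k / n) ≤ r * (1 / E) := mul_le_mul_of_nonneg_left hkn2 hrpos.le
      _ = r / E := by ring
  have hr2r : (r : ℝ) / E ≤ ε / 16 := by
    rw [div_le_div_iff₀ h2r (by norm_num)]
    rw [div_mul_eq_mul_div, div_le_iff₀ hε] at g2
    linarith
  have hr2r' : (r : ℝ) / E ≤ 1 / 8 := by
    rw [div_le_div_iff₀ h2r (by norm_num)]
    linarith
  have h2rr : 1 / E ≤ r / E := by
    apply div_le_div_of_nonneg_right _ h2r.le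
    linarith
  have h2overr : 2 / (r : ℝ) ≤ 1 / 4 := by
    rw [div_le_div_iff₀ hrpos (by norm_num)]
    linarith
  have hkn0 : (0 : ℝ) ≤ k / n := by positivity
  obtain ⟨x, hx⟩ : ∃ x : ℝ, x = η / r + 2 * k / n + 2 * r / r ^ 3 := ⟨_, rfl⟩
  have hqx : (D - k) / n - r / (r : ℝ) ^ 3 = 1 / 2 * (1 - x) := by
    rw [hD, hx]
    field_simp
    ring
  have hrx : (r : ℝ) * x = η + 2 * (r * (k / n)) + 2 / r := by
    rw [hx]
    field_simp
  have hrx1 : (r : ℝ) * x < 1 := by
    rw [hrx]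
    linarith
  have hx0 : 0 ≤ x := by rw [hx]; positivity
  have hx1 : x ≤ 1 := by
    have : x ≤ r * x := by
      have h : 1 * x ≤ r * x := mul_le_mul_of_nonneg_right (by linarith) hx0
      linarith
    linarith
  have hq : 0 ≤ (D - k) / n - r / (r : ℝ) ^ 3 := by
    rw [hqx]
    linarith
  -- hν
  have hν : 2 * (r : ℝ) ^ 3 + r ≤
      ((univ.filter (fun v => D ≤ (G.degree v : ℝ))).card : ℝ) * ((D - k) / n) ^ k := by
    apply avg_large n r k (2 ^ L) η D _ k L rfl hrpos hnpos hη0 hη1 hkrR hk0 rfl _ _ _ hD hBcard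
      g1 hrr3
    · have h7 : E = 2 ^ k * 2 ^ L := by
        rw [hE, ← pow_add]
        congr 1
        omega
      have h8 : (1 / 2 : ℝ) ^ k * 2 ^ k = 1 := by
        rw [← mul_pow]
        norm_num
      have h9 : (r : ℝ) * E * (1 / 2) ^ k ≤ n * (1 / 2) ^ k :=
        mul_le_mul_of_nonneg_right hnR.le (by positivity)
      calc (r : ℝ) * 2 ^ L = r * 2 ^ L * ((1 / 2 : ℝ) ^ k * 2 ^ k) := by rw [h8, mul_one]
        _ = (r : ℝ) * E * (1 / 2) ^ k := by rw [h7]; ring
        _ ≤ _ := h9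
    · exact hrkn.trans hr2r'
    · have h3 : η / r + 2 * k / n ≤ x := by
        rw [hx]
        have : 0 ≤ 2 * (r : ℝ) / r ^ 3 := by positivity
        linarith
      exact h3.trans hx1
  have hkn' : k < n := by
    have : (k : ℝ) < n := by linarith
    exact_mod_cast this
  have hmain := main_ineq G (univ.filter (fun v => D ≤ (G.degree v : ℝ))) r k (sr G r) (by omega)
    D ((r : ℝ) ^ 3) hkn'
    (fun v hv => (mem_filter.1 hv).2)
    (fun R hR => by
      have h1 := nb_le_sr G R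
      rwa [(mem_powersetCard.1 hR).2] at h1)
    hY0pos hDk hq hν
  -- conclusion
  have hμr : (r : ℝ) < n / 2 ^ r := by
    rw [← hE, lt_div_iff₀ h2r]
    exact hnR
  have hμpos : (0 : ℝ) < n / 2 ^ r := hrpos.trans hμr
  have hfin := final_calc n r k x ((n : ℝ) / 2 ^ r) (sr G r) L ε _ (sr G r - k) r hnpos hrpos
    (by omega) rfl hμr hk0 (by exact_mod_cast hkn') (mul_nonneg hrpos.le hx0) hrx1 rfl
    (by linarith) hx0 hmain hqx
    (by
      rcases le_total k (sr G r) with h | h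
      · left
        rw [Nat.cast_sub h]
      · right
        exact Nat.sub_eq_zero_of_le h)
    (by
      rw [hrx]
      have h5 : (1 / 2 : ℝ) ^ r ≤ r / E := by
        rw [div_pow, one_pow, ← hE]
        exact h2rr
      have h6 : (k : ℝ) / n ≤ r / E := hkn2.trans h2rr
      linarith)
    hkL
    (by
      have h9 : (L : ℝ) ≤ r / p := by
        rw [hL]
        exact Nat.cast_div_le
      have h10 : (r : ℝ) / p ≤ r * (ε / 4) := by
        rw [div_eq_mul_one_div]
        exact mul_le_mul_of_nonneg_left hp1 hrpos.le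
      have h11 : (r : ℝ) * (ε / 4) ≤ n / 2 ^ r * (ε / 4) :=
        mul_le_mul_of_nonneg_right hμr.le (by positivity)
      linarith)
  rw [le_div_iff₀ hμpos]
  have h7 : (r * 2 ^ r : ℝ) / n * (n / 2 ^ r) = r := by
    have : (2 : ℝ) ^ r ≠ 0 := by positivity
    field_simp
  have h9 : (1 + (r * 2 ^ r : ℝ) / n - ε) * (n / 2 ^ r) =
      n / 2 ^ r + (r * 2 ^ r : ℝ) / n * (n / 2 ^ r) - ε * (n / 2 ^ r) := by ring
  rw [h9, h7]
  exact hfin

/-- For every `ε > 0` and all large `n`: `A(n) ≥ 1 + r 2^r / n - ε` for every `r` with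
`r 2^r < n`. -/
theorem main : ∀ ε : ℝ, 0 < ε → ∃ N : ℕ, ∀ n : ℕ, N ≤ n → ∀ r : ℕ, r * 2 ^ r < n →
    1 + (r * 2 ^ r : ℝ) / n - ε ≤ A n := by
  intro ε hε
  obtain ⟨r0, hr01, hr0⟩ := core ε hε
  refine ⟨r0 * 2 ^ r0 + 1, fun n hn r hr => ?_⟩
  have hex : r0 * 2 ^ r0 < n := by omega
  -- the largest admissible exponent
  have hmono : ∀ a b : ℕ, a ≤ b → a * 2 ^ a ≤ b * 2 ^ b := fun a b hab =>
    Nat.mul_le_mul hab (Nat.pow_le_pow_right (by norm_num) hab)
  set t := max r r0 with ht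
  have ht1 : t * 2 ^ t < n := by
    rcases max_choice r r0 with h | h
    · rw [ht, h]; exact hr
    · rw [ht, h]; exact hex
  have hn0 : (0 : ℝ) < n := by
    have : 0 < n := by omega
    exact_mod_cast this
  unfold A
  apply le_csInf
  · obtain ⟨G, hG⟩ := exists_graph n
    exact ⟨_, G, hG, rfl⟩
  · rintro _ ⟨G, hG, rfl⟩
    have h1 := hr0 t (le_max_right _ _) n ht1 G hG
    have h2 := le_f G t (le_trans hr01 (le_max_right _ _)) ht1
    have h3 : (r * 2 ^ r : ℝ) / n ≤ (t * 2 ^ t : ℝ) / n := by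
      apply div_le_div_of_nonneg_right _ hn0.le
      exact_mod_cast hmono r t (le_max_left _ _)
    linarith

end Pool.Agent.Results.MP_58acf5_co.LowerBound
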